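import Pool.Agent.Y734.M.KSIX.Main

/-!
# Weights on the edges of `K₇`
-/

set_option autoImplicit false

namespace Pool.Agent.Y734.M.KSEV

open Pool.Agent.Y734.M Pool.Agent.Y734.M.KSIX

/-- nothing is accepted -/
def acc0 (_ : List (ℕ × List ℤ)) (_ : List (List (Fin 7))) : Bool := false

/-- the five-point subsets used for the pairs of solutions -/
def cases7A : List (List ℤ × List ℤ × List ((Fin 5 → Fin 7) × List (List ℤ))) := [
  ([0, 0, -2, 0, -2], [0, 0, -2, 0, -2], [(![0, 1, 2, 5, 6], [[-2], [-4], [-2], [-4], [0, 1]])]),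
  ([0, 0, -2, 0, -2], [0, 0, 0, -2, -2], [(![0, 1, 2, 5, 6], [[-2], [-4], [0], [-2], [0, 1]]),
    (![0, 1, 4, 5, 6], [[-2], [-2], [-2], [-2], [0, 1]])]),
  ([0, 0, -2, 0, -2], [0, 4, 2, 2, 0], [(![0, 1, 2, 5, 6], [[-2], [-4], [-2], [0], [-4, 1]])]),
  ([0, 0, -2, 0, -2], [0, 0, 2, 2, 0], [(![0, 1, 2, 5, 6], [[-2], [-4], [2], [0], [0, 1]])]),
  ([0, 0, -2, 0, -2], [0, 2, 0, 2, 2], [(![0, 1, 2, 5, 6], [[-2], [-4], [-2], [-2], [-2, 1]]),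
    (![0, 1, 3, 5, 6], [[0], [-2], [0], [0], [-2, 1]])]),
  ([0, 0, -2, 0, -2], [0, 2, 2, 0, 2], [(![0, 1, 2, 5, 6], [[-2], [-4], [0], [0], [-2, 1]])]),
  ([0, 0, 0, -2, -2], [0, 0, -2, 0, -2], [(![0, 1, 2, 5, 6], [[0], [-2], [-2], [-4], [0, 1]]),
    (![0, 1, 4, 5, 6], [[-2], [-2], [-2], [-2], [0, 1]])]),
  ([0, 0, 0, -2, -2], [0, 0, 0, -2, -2], [(![0, 1, 3, 5, 6], [[-2], [-4], [-2], [-4], [0, 1]])]),
  ([0, 0, 0, -2, -2], [0, 4, 2, 2, 0], [(![0, 1, 3, 5, 6], [[-2], [-4], [-2], [0], [-4, 1]])]),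
  ([0, 0, 0, -2, -2], [0, 0, 2, 2, 0], [(![0, 1, 3, 5, 6], [[-2], [-4], [2], [0], [0, 1]])]),
  ([0, 0, 0, -2, -2], [0, 2, 0, 2, 2], [(![0, 1, 3, 5, 6], [[-2], [-4], [0], [0], [-2, 1]])]),
  ([0, 0, 0, -2, -2], [0, 2, 2, 0, 2], [(![0, 1, 2, 5, 6], [[0], [-2], [0], [0], [-2, 1]]),
    (![0, 1, 3, 5, 6], [[-2], [-4], [-2], [-2], [-2, 1]])]),
  ([0, 4, 2, 2, 0], [0, 0, -2, 0, -2], [(![0, 1, 2, 5, 6], [[-2], [0], [-2], [-4], [0, 1]])]),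
  ([0, 4, 2, 2, 0], [0, 0, 0, -2, -2], [(![0, 1, 3, 5, 6], [[-2], [0], [-2], [-4], [0, 1]])]),
  ([0, 4, 2, 2, 0], [0, 4, 2, 2, 0], [(![1, 2, 3, 5, 6], [[0], [0], [0], [0], [-4, 1]]),
    (![0, 1, 2, 5, 6], [[-2], [0], [-2], [0], [-4, 1]])]),
  ([0, 4, 2, 2, 0], [0, 0, 2, 2, 0], [(![0, 1, 2, 5, 6], [[-2], [0], [2], [0], [0, 1]])]),
  ([0, 4, 2, 2, 0], [0, 2, 0, 2, 2], [(![0, 1, 4, 5, 6], [[-4], [0], [0], [2], [-2, 1]])]),
  ([0, 4, 2, 2, 0], [0, 2, 2, 0, 2], [(![0, 1, 4, 5, 6], [[-4], [0], [0], [2], [-2, 1]])]),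
  ([0, 0, 2, 2, 0], [0, 0, -2, 0, -2], [(![0, 1, 2, 5, 6], [[2], [0], [-2], [-4], [0, 1]])]),
  ([0, 0, 2, 2, 0], [0, 0, 0, -2, -2], [(![0, 1, 3, 5, 6], [[2], [0], [-2], [-4], [0, 1]])]),
  ([0, 0, 2, 2, 0], [0, 4, 2, 2, 0], [(![0, 1, 2, 5, 6], [[2], [0], [-2], [0], [-4, 1]])]),
  ([0, 0, 2, 2, 0], [0, 0, 2, 2, 0], [(![0, 1, 4, 5, 6], [[0], [0], [0], [0], [0, 1]]),
    (![0, 1, 2, 5, 6], [[2], [0], [2], [0], [0, 1]])]),
  ([0, 0, 2, 2, 0], [0, 2, 0, 2, 2], [(![1, 2, 3, 5, 6], [[0], [4], [2], [2], [2, 1]])]),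
  ([0, 0, 2, 2, 0], [0, 2, 2, 0, 2], [(![1, 2, 3, 5, 6], [[0], [4], [-2], [0], [0, 1]])]),
  ([0, 2, 0, 2, 2], [0, 0, -2, 0, -2], [(![0, 1, 2, 5, 6], [[-2], [-2], [-2], [-4], [0, 1]]),
    (![0, 1, 3, 5, 6], [[0], [0], [0], [-2], [0, 1]])]),
  ([0, 2, 0, 2, 2], [0, 0, 0, -2, -2], [(![0, 1, 3, 5, 6], [[0], [0], [-2], [-4], [0, 1]])]),
  ([0, 2, 0, 2, 2], [0, 4, 2, 2, 0], [(![0, 1, 4, 5, 6], [[0], [2], [-4], [0], [-4, 1]])]),
  ([0, 2, 0, 2, 2], [0, 0, 2, 2, 0], [(![1, 2, 3, 5, 6], [[2], [2], [0], [4], [-2, 1]])]),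
  ([0, 2, 0, 2, 2], [0, 2, 0, 2, 2], [(![1, 2, 4, 5, 6], [[4], [2], [4], [2], [0, 1]])]),
  ([0, 2, 0, 2, 2], [0, 2, 2, 0, 2], [(![0, 1, 2, 5, 6], [[-2], [-2], [0], [0], [-2, 1]]),
    (![1, 2, 4, 5, 6], [[4], [2], [2], [2], [-2, 1]])]),
  ([0, 2, 2, 0, 2], [0, 0, -2, 0, -2], [(![0, 1, 2, 5, 6], [[0], [0], [-2], [-4], [0, 1]])]),
  ([0, 2, 2, 0, 2], [0, 0, 0, -2, -2], [(![0, 1, 2, 5, 6], [[0], [0], [0], [-2], [0, 1]]),
    (![0, 1, 3, 5, 6], [[-2], [-2], [-2], [-4], [0, 1]])]),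
  ([0, 2, 2, 0, 2], [0, 4, 2, 2, 0], [(![0, 1, 4, 5, 6], [[0], [2], [-4], [0], [-4, 1]])]),
  ([0, 2, 2, 0, 2], [0, 0, 2, 2, 0], [(![1, 2, 3, 5, 6], [[-2], [0], [0], [4], [-2, 1]])]),
  ([0, 2, 2, 0, 2], [0, 2, 0, 2, 2], [(![0, 1, 2, 5, 6], [[0], [0], [-2], [-2], [-2, 1]]),
    (![1, 2, 4, 5, 6], [[2], [2], [4], [2], [0, 1]])]),
  ([0, 2, 2, 0, 2], [0, 2, 2, 0, 2], [(![1, 3, 4, 5, 6], [[4], [2], [4], [2], [0, 1]])])]

/-- the five-point subsets used for the pairs of solutions -/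
def cases7B : List (List ℤ × List ℤ × List ((Fin 5 → Fin 7) × List (List ℤ))) := [
  ([0, 0, 0, 0, -2], [0, 0, 0, 0, -2], [(![0, 3, 4, 5, 6], [[0], [0], [0], [0], [2, 1]]),
    (![0, 1, 4, 5, 6], [[-2], [-2], [-2], [-2], [0, 1]])]),
  ([0, 0, 0, 0, -2], [0, 0, 0, 0, 2], [(![0, 1, 4, 5, 6], [[-2], [-2], [2], [2], [0, 1]])]),
  ([0, 0, 0, 0, 2], [0, 0, 0, 0, -2], [(![0, 1, 4, 5, 6], [[2], [2], [-2], [-2], [0, 1]])]),
  ([0, 0, 0, 0, 2], [0, 0, 0, 0, 2], [(![0, 1, 2, 5, 6], [[0], [-2], [0], [-2], [0, 1]]),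
    (![0, 1, 4, 5, 6], [[2], [2], [2], [2], [0, 1]])])]

/-- the five-point subsets used for the pairs of solutions -/
def cases7C : List (List ℤ × List ℤ × List ((Fin 5 → Fin 7) × List (List ℤ))) := [
  ([0, 2, 2, 0, 0], [0, 2, 2, 0, 0], [(![0, 3, 4, 5, 6], [[0], [0], [0], [0], [0, 1]]),
    (![0, 1, 3, 5, 6], [[-2], [-2], [-2], [-2], [-2, 1]])]),
  ([0, 2, 2, 0, 0], [0, 2, 2, 0, 2], [(![0, 2, 4, 5, 6], [[0], [2], [2], [4], [0, 1]]),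
    (![0, 1, 2, 5, 6], [[-2], [0], [-2], [0], [-2, 1]])]),
  ([0, 2, 2, 0, 0], [0, 2, 2, 0, -2], [(![0, 1, 4, 5, 6], [[-2], [0], [-4], [-2], [-2, 1]]),
    (![0, 1, 3, 5, 6], [[-2], [-2], [-2], [-2], [-2, 1]])]),
  ([0, 2, 2, 0, 2], [0, 2, 2, 0, 0], [(![0, 2, 4, 5, 6], [[2], [4], [0], [2], [0, 1]]),
    (![0, 1, 2, 5, 6], [[-2], [0], [-2], [0], [-2, 1]])]),
  ([0, 2, 2, 0, 2], [0, 2, 2, 0, 2], [(![0, 2, 4, 5, 6], [[2], [4], [2], [4], [0, 1]])]),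
  ([0, 2, 2, 0, 2], [0, 2, 2, 0, -2], [(![0, 1, 4, 5, 6], [[0], [2], [-4], [-2], [-2, 1]])]),
  ([0, 2, 2, 0, -2], [0, 2, 2, 0, 0], [(![0, 1, 4, 5, 6], [[-4], [-2], [-2], [0], [-2, 1]]),
    (![0, 1, 3, 5, 6], [[-2], [-2], [-2], [-2], [-2, 1]])]),
  ([0, 2, 2, 0, -2], [0, 2, 2, 0, 2], [(![0, 1, 4, 5, 6], [[-4], [-2], [0], [2], [-2, 1]])]),
  ([0, 2, 2, 0, -2], [0, 2, 2, 0, -2], [(![0, 1, 4, 5, 6], [[-4], [-2], [-4], [-2], [-2, 1]])])]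

set_option maxRecDepth 100000 in
theorem fin7A : ∀ v ∈ solsA, ∀ v' ∈ solsA, ∃ p ∈ cases7A, p.1 = v ∧ p.2.1 = v' ∧
    (∀ q ∈ p.2.2, Function.Injective q.1 ∧ q.2 = cfl (Wv rA v v') q.1) ∧
    srch acc0 [1] (p.2.2.map fdv) [] [] [] = true := by
  decide +kernel

set_option maxRecDepth 100000 in
theorem fin7B : ∀ v ∈ solsB, ∀ v' ∈ solsB, ∃ p ∈ cases7B, p.1 = v ∧ p.2.1 = v' ∧
    (∀ q ∈ p.2.2, Function.Injective q.1 ∧ q.2 = cfl (Wv rB v v') q.1) ∧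
    srch acc0 [1] (p.2.2.map fdv) [] [] [] = true := by
  decide +kernel

set_option maxRecDepth 100000 in
theorem fin7C : ∀ v ∈ solsC, ∀ v' ∈ solsC, ∃ p ∈ cases7C, p.1 = v ∧ p.2.1 = v' ∧
    (∀ q ∈ p.2.2, Function.Injective q.1 ∧ q.2 = cfl (Wv rC v v') q.1) ∧
    srch acc0 [1] (p.2.2.map fdv) [] [] [] = true := by
  decide +kernel

/-- the first six points, or the first five points and the last one -/
def jj (t : Bool) : Fin 6 → Fin 7 := if t = true then ![0, 1, 2, 3, 4, 6] else ![0, 1, 2, 3, 4, 5]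

theorem jj_inj (t : Bool) : Function.Injective (jj t) := by
  revert t
  decide

theorem jj_val (t : Bool) (i : Fin 6) (hi : (i : ℕ) < 5) : ((jj t i : Fin 7) : ℕ) = i := by
  revert t i
  decide

theorem sev_of {r : Fin 5 → Fin 5 → ℤ} {S : List (List ℤ)} {D : List (Fd 6)}
    (hD : ∀ d ∈ D, Function.Injective d.f ∧ d.C = cfl (W6 r) d.f ∧
      (∀ b ∈ labels, b ∈ d.L ∨ alive [1] d.C b = false) ∧ (∀ b ∈ d.L, b ∈ labels))
    (hrun : srch (accS S) [1] D [] [] [] = true) (hS : ∀ v ∈ S, v.getD 0 0 = 0)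
    {cs : List (List ℤ × List ℤ × List ((Fin 5 → Fin 7) × List (List ℤ)))}
    (hcs : ∀ v ∈ S, ∀ v' ∈ S, ∃ p ∈ cs, p.1 = v ∧ p.2.1 = v' ∧
      (∀ q ∈ p.2.2, Function.Injective q.1 ∧ q.2 = cfl (Wv r v v') q.1) ∧
      srch acc0 [1] (p.2.2.map fdv) [] [] [] = true)
    {e : Fin 7 → Fin 7 → ℤ} (hs : Sy e)
    (H : ∀ f : Fin 5 → Fin 7, Function.Injective f → Cond e (fun _ => True) f)
    (hray : Ray r (pull e (Fin.castLE (by norm_num)))) : False := by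
  obtain ⟨K, w, hK, hw, h5, h0, hcrl⟩ := gauge (by norm_num) hs hray
  have hSat : ∀ f : Fin 5 → Fin 7, Function.Injective f →
      ∃ b ∈ labels, Sat w (fun _ => True) f b :=
    fun f hf => sat_of hs (fun _ _ => trivial) (fun _ _ => trivial) (hcrl f) (H f hf)
  have hcl : ∀ t : Bool, ∃ v ∈ S, ∀ i : Fin 6, (i : ℕ) < 5 →
      w (jj t i) (jj t 5) = v.getD i 0 * K := by
    intro t
    refine cls (w := pull w (jj t)) (E := fun _ => True) hD hrun hS (fun i j => hw _ _) hK ?_ ?_ ?_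
    · intro i j hi hj hij
      have h1 := jj_val t i hi
      have h2 := jj_val t j hj
      have h3 := h5 (jj t i) (jj t j) (by omega) (by omega) (by
        rw [Fin.lt_def, h1, h2]
        exact hij)
      refine h3.trans ?_
      congr 3
      · exact Fin.ext h1
      · exact Fin.ext h2
    · change w (jj t 0) (jj t 5) = 0
      have h1 : jj t 0 = ⟨0, by norm_num⟩ := Fin.ext (jj_val t 0 (by norm_num))
      rw [h1]
      refine h0 _ ?_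
      revert t
      decide
    · intro f hf
      refine sat_of (e := pull e (jj t)) (fun i j => hs _ _) (fun _ _ => trivial)
        (fun _ _ => trivial) (hcrl (jj t ∘ f)) ?_
      rcases H (jj t ∘ f) ((jj_inj t).comp hf) with h | ⟨σ, h⟩
      · exact Or.inl h
      · exact Or.inr ⟨σ, h⟩
  obtain ⟨v, hv, h6⟩ := hcl false
  obtain ⟨v', hv', h7⟩ := hcl true
  obtain ⟨p, _, _, _, hpf, hsr⟩ := hcs v hv v' hv'
  let x : ℕ → ℤ := fun t => if t = 0 then K else if t = 1 then w 5 6 else 0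
  have hx0 : x 0 = K := if_pos rfl
  have hW : ∀ i j : Fin 7, i ≠ j → evl (Wv r v v' i j) x = w i j := by
    refine hW_of_lt (Wv_symm r v v') hw fun i j hij => ?_
    have hij' : (i : ℕ) < j := hij
    unfold Wv
    by_cases hj : (j : ℕ) < 5
    · rw [dif_pos ⟨by omega, by omega⟩]
      simp only [min_eq_left hij'.le, max_eq_right hij'.le]
      rw [evl, evl, h5 i j (hij'.trans hj) hj hij, hx0, add_zero]
    · rw [dif_neg (by omega), min_eq_left hij'.le, max_eq_right hij'.le]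
      by_cases hj5 : (j : ℕ) = 5
      · have hj' : j = 5 := Fin.ext hj5
        have h8 := h6 ⟨i, by omega⟩ (by change (i : ℕ) < 5; omega)
        have h9 : jj false ⟨i, by omega⟩ = i :=
          Fin.ext (jj_val false ⟨i, by omega⟩ (by change (i : ℕ) < 5; omega))
        have h10 : jj false 5 = 5 := by decide
        rw [h9, h10] at h8
        rw [if_pos hj5, evl, evl, hx0, add_zero, hj', h8]
      · have hj' : j = 6 := Fin.ext (by have := j.2; change (j : ℕ) = 6; omega)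
        rw [if_neg hj5]
        by_cases hi5 : (i : ℕ) = 5
        · have hi' : i = 5 := Fin.ext hi5
          rw [if_pos hi5, hi', hj']
          simp [evl, x]
        · have h8 := h7 ⟨i, by omega⟩ (by change (i : ℕ) < 5; omega)
          have h9 : jj true ⟨i, by omega⟩ = i :=
            Fin.ext (jj_val true ⟨i, by omega⟩ (by change (i : ℕ) < 5; omega))
          have h10 : jj true 5 = 6 := by decide
          rw [h9, h10] at h8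
          rw [if_neg hi5, evl, evl, hx0, add_zero, hj', h8]
  refine srch_sound (acc := acc0) (E := fun _ => True) (x := x) hW (N := [1]) ?_ ?_
    (p.2.2.map fdv) ?_ [] [] [] (by simp [Z]) (by simp) (by simp) hsr
  · simpa [evl, x] using hK
  · intro B fs _ _ hacc
    exact absurd hacc (by simp [acc0])
  · intro d hd
    rw [List.mem_map] at hd
    obtain ⟨q, hq, rfl⟩ := hd
    exact ⟨(hpf q hq).1, fdv_good (hpf q hq).2 [1], hSat q.1 (hpf q hq).1⟩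

/-- Job KSEV. -/
theorem ksev : KsevStmt := by
  intro e hs H
  by_contra hnt
  have hC : ∀ f : Fin 5 → Fin 7, Function.Injective f → Cond e (fun _ => True) f := by
    intro f hf
    rcases H f hf with h | ⟨σ, h | h | h⟩
    · exact Or.inl h
    · exact Or.inr ⟨σ, Or.inl h⟩
    · exact Or.inr ⟨σ, Or.inr ⟨Or.inl h, trivial⟩⟩
    · exact Or.inr ⟨σ, Or.inr ⟨Or.inr h, trivial⟩⟩
  obtain ⟨π, hπ⟩ := frame (by norm_num) hnt hC
  have hs' : Sy (pull e π) := fun i j => hs _ _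
  have hC' : ∀ f : Fin 5 → Fin 7, Function.Injective f → Cond (pull e π) (fun _ => True) f := by
    intro f hf
    rcases hC (π ∘ f) (π.injective.comp hf) with h | ⟨σ, h⟩
    · exact Or.inl h
    · exact Or.inr ⟨σ, h⟩
  rcases hπ with hA | ⟨hB | hC, _⟩
  · exact sev_of dataA_ok runA (fun v hv => (fin6A v hv).1) fin7A hs' hC' hA
  · exact sev_of dataB_ok runB (fun v hv => (fin6B v hv).1) fin7B hs' hC' hB
  · exact sev_of dataC_ok runC (fun v hv => (fin6C v hv).1) fin7C hs' hC' hC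

end Pool.Agent.Y734.M.KSEV
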